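import Pool.Agent.P8H83.DS.Stm
import Pool.Agent.NPC.Dec
import Pool.Agent.H671R2.PolyAuto

set_option autoImplicit false

/-!
# Project DS: the algorithm runs in polynomial time (package POL)
-/

namespace Pool.Agent.P8H52.DS

open Pool.Agent.NPC Pool.Agent.NPC.R671 Pool.Agent.Y600.DC Pool.Agent.P8H83.DS

theorem cl_poly : NPC.Poly (fun x : List (List Bool) × ℕ × ℕ => cl x.1 x.2.1 x.2.2) := by
  unfold cl
  fun_prop

theorem ld_poly : NPC.Poly (fun x : List (List Bool) × List (ℕ × ℕ) × ℕ => ld x.1 x.2.1 x.2.2) := by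
  refine NPC.Poly.sum (NPC.Poly.map (l := fun x : List (List Bool) × List (ℕ × ℕ) × ℕ =>
    List.range x.1.length) (F := fun x v => if cl x.1 v x.2.2 then (x.2.1.getD v (0, 0)).1 else 0)
    (NPC.Poly.range_length (NPC.Poly.fst NPC.Poly.id)) ?_)
  refine NPC.Poly.ite ?_ (by fun_prop) (by fun_prop)
  have h : NPC.Poly (fun p : (List (List Bool) × List (ℕ × ℕ) × ℕ) × ℕ =>
      cl p.1.1 p.2 p.1.2.2) := cl_poly.comp (f := fun p : (List (List Bool) × List (ℕ × ℕ) × ℕ) × ℕ
        => (p.1.1, p.2, p.1.2.2)) (by fun_prop)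
  exact NPC.Poly.decide_bool h

theorem best_aux (M : List (List Bool)) (s : List (ℕ × ℕ)) (l : List ℕ) (n : ℕ)
    (h : ∀ u ∈ l, u ≤ n) : ∀ b, b ≤ n →
    l.foldl (fun b u => if ld M s b < ld M s u then u else b) b ≤ n := by
  induction l with
  | nil => exact fun b hb => hb
  | cons u l ih =>
    intro b hb
    rw [List.foldl_cons]
    refine ih (fun v hv => h v (List.mem_cons_of_mem _ hv)) _ ?_
    split_ifs
    · exact h u (List.mem_cons_self ..)
    · exact hb

theorem best_poly : NPC.Poly (fun x : List (List Bool) × List (ℕ × ℕ) => best x.1 x.2) := by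
  refine NPC.Poly.foldl (l := fun x : List (List Bool) × List (ℕ × ℕ) => List.range x.1.length)
    (s := fun _ => 0) (F := fun x b u => if ld x.1 x.2 b < ld x.1 x.2 u then u else b)
    (NPC.Poly.range_length (NPC.Poly.fst NPC.Poly.id)) (NPC.Poly.const _) ?_ (4 * Polynomial.X + 1) ?_
  · refine NPC.Poly.ite (NPC.Poly.decide_lt ?_ ?_) (by fun_prop) (by fun_prop)
    · exact ld_poly.comp (f := fun p : (List (List Bool) × List (ℕ × ℕ)) × ℕ × ℕ =>
        (p.1.1, p.1.2, p.2.1)) (by fun_prop)
    · exact ld_poly.comp (f := fun p : (List (List Bool) × List (ℕ × ℕ)) × ℕ × ℕ =>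
        (p.1.1, p.1.2, p.2.2)) (by fun_prop)
  · intro x k _
    have h1 := best_aux x.1 x.2 ((List.range x.1.length).take k) x.1.length (fun u hu =>
      (List.mem_range.1 (List.mem_of_mem_take hu)).le) 0 (Nat.zero_le _)
    have h2 := sz_nat_le (((List.range x.1.length).take k).foldl
      (fun b u => if ld x.1 x.2 b < ld x.1 x.2 u then u else b) 0)
    have h3 := NPC.Poly.size_le_self (((List.range x.1.length).take k).foldl
      (fun b u => if ld x.1 x.2 b < ld x.1 x.2 u then u else b) 0)
    have h4 := length_lt_sz x.1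
    obtain ⟨M, s⟩ := x
    simp only [sz_pair, Polynomial.eval_add, Polynomial.eval_mul, Polynomial.eval_X,
      Polynomial.eval_one, Polynomial.eval_ofNat] at *
    omega

theorem step_poly : NPC.Poly (fun x : List (List Bool) × List (ℕ × ℕ) => step x.1 x.2) := by
  refine NPC.Poly.map (l := fun x : List (List Bool) × List (ℕ × ℕ) => List.range x.1.length)
    (F := fun x v => if cl x.1 v (best x.1 x.2) then
      ((2 * x.1.length + 1) * (x.2.getD v (0, 0)).1, (x.2.getD v (0, 0)).2 + 1)
    else ((2 * x.1.length + 2) * (x.2.getD v (0, 0)).1, (x.2.getD v (0, 0)).2))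
    (NPC.Poly.range_length (NPC.Poly.fst NPC.Poly.id)) ?_
  refine NPC.Poly.ite (NPC.Poly.decide_bool ?_) (by fun_prop) (by fun_prop)
  exact cl_poly.comp (f := fun p : (List (List Bool) × List (ℕ × ℕ)) × ℕ =>
    (p.1.1, p.2, best p.1.1 p.1.2)) (NPC.Poly.pair (by fun_prop) (NPC.Poly.pair (by fun_prop)
      (best_poly.comp (NPC.Poly.fst NPC.Poly.id))))

/-- the bound of the state after `k` rounds -/
theorem run_bound (M : List (List Bool)) (k : ℕ) : (run M k).length = M.length ∧
    ∀ x ∈ run M k, x.1 ≤ (2 * M.length + 2) ^ k ∧ x.2 ≤ k := by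
  induction k with
  | zero =>
    refine ⟨by simp [run], fun x hx => ?_⟩
    simp only [run, Function.iterate_zero, id_eq, List.mem_map, List.mem_range] at hx
    obtain ⟨_, _, rfl⟩ := hx
    simp
  | succ k ih =>
    have hr : run M (k + 1) = step M (run M k) := by
      unfold run
      rw [Function.iterate_succ_apply']
    rw [hr]
    refine ⟨by simp [step], fun x hx => ?_⟩
    unfold step at hx
    rw [List.mem_map] at hx
    obtain ⟨v, _, rfl⟩ := hx
    have hg : ((run M k).getD v (0, 0)).1 ≤ (2 * M.length + 2) ^ k ∧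
        ((run M k).getD v (0, 0)).2 ≤ k := by
      by_cases hv : v < (run M k).length
      · rw [List.getD_eq_getElem _ _ hv]
        exact ih.2 _ (List.getElem_mem hv)
      · rw [List.getD_eq_default _ _ (by omega)]
        simp
    split_ifs
    · refine ⟨?_, by simp only; omega⟩
      simp only
      rw [pow_succ, mul_comm ((2 * M.length + 2) ^ k)]
      exact Nat.mul_le_mul (by omega) hg.1
    · refine ⟨?_, by simp only; omega⟩
      simp only
      rw [pow_succ, mul_comm ((2 * M.length + 2) ^ k)]
      exact Nat.mul_le_mul le_rfl hg.1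

theorem sz_run (M : List (List Bool)) (k R : ℕ) (hk : k ≤ R) : sz (run M k) ≤
    M.length * (4 * ((2 * M.length + 2) * R + 1) + 1 + (4 * R + 1) + 1 + 1) + 1 := by
  obtain ⟨h1, h2⟩ := run_bound M k
  have h3 := sz_le_length_mul (run M k) (4 * ((2 * M.length + 2) * R + 1) + 1 + (4 * R + 1) + 1)
    (fun x hx => ?_)
  · rw [h1] at h3
    exact h3
  · obtain ⟨hw, hc⟩ := h2 x hx
    obtain ⟨w, c⟩ := x
    simp only at hw hc
    rw [sz_pair]
    have e1 := sz_nat_le w
    have e2 := sz_nat_le c
    have e3 := NPC.Poly.size_le_self c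
    have e4 : w.size ≤ (2 * M.length + 2) * R + 1 := by
      rw [Nat.size_le]
      calc w ≤ (2 * M.length + 2) ^ k := hw
        _ ≤ (2 ^ (2 * M.length + 2)) ^ k := Nat.pow_le_pow_left Nat.lt_two_pow_self.le k
        _ = 2 ^ ((2 * M.length + 2) * k) := by rw [pow_mul]
        _ ≤ 2 ^ ((2 * M.length + 2) * R) :=
          Nat.pow_le_pow_right (by norm_num) (Nat.mul_le_mul_left _ hk)
        _ < 2 ^ ((2 * M.length + 2) * R + 1) :=
          Nat.pow_lt_pow_right (by norm_num) (by omega)
    omega

theorem rounds_upoly : UPoly (fun p : List (List Bool) × ℕ => rounds p.1.length) := by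
  have h := UPoly.eval (UPoly.length (α := List (List Bool) × ℕ) (l := fun p => p.1)
    (NPC.Poly.fst NPC.Poly.id)) (8 * (Polynomial.X + 1) ^ 4)
  simpa [rounds] using h

/-- the start -/
def st0 (M : List (List Bool)) : List (ℕ × ℕ) := (List.range M.length).map fun _ => (1, 0)

theorem run_eq (M : List (List Bool)) (k : ℕ) : run M k = (step M)^[k] (st0 M) := rfl

theorem step_poly' : NPC.Poly (fun x : (List (List Bool) × ℕ) × List (ℕ × ℕ) => step x.1.1 x.2) :=
  step_poly.comp (f := fun x : (List (List Bool) × ℕ) × List (ℕ × ℕ) => (x.1.1, x.2))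
    (by fun_prop)

theorem st0_poly : NPC.Poly (fun p : List (List Bool) × ℕ => st0 p.1) :=
  NPC.Poly.map (l := fun p : List (List Bool) × ℕ => List.range p.1.length)
    (F := fun _ _ => ((1, 0) : ℕ × ℕ)) (NPC.Poly.range_length (NPC.Poly.fst NPC.Poly.id))
    (NPC.Poly.const _)

attribute [local irreducible] step rounds st0

theorem run_poly : NPC.Poly (fun p : List (List Bool) × ℕ => run p.1 (rounds p.1.length)) := by
  have h : NPC.Poly (fun p : List (List Bool) × ℕ =>
      (step p.1)^[(List.replicate (rounds p.1.length) ()).length] (st0 p.1)) := by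
    refine NPC.Poly.iterLen (l := fun p : List (List Bool) × ℕ =>
      List.replicate (rounds p.1.length) ()) (s := fun p => st0 p.1)
      (F := fun p s => step p.1 s) rounds_upoly st0_poly step_poly'
      (Polynomial.X * (4 * ((2 * Polynomial.X + 2) * (8 * (Polynomial.X + 1) ^ 4) + 1) + 1 +
        (4 * (8 * (Polynomial.X + 1) ^ 4) + 1) + 1 + 1) + 1) ?_
    · intro p k hk
      rw [List.length_replicate] at hk
      have h1 := sz_run p.1 k _ hk
      rw [run_eq] at h1
      refine h1.trans ?_
      have h2 : p.1.length ≤ sz p := by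
        have := length_lt_sz p.1
        obtain ⟨M, c⟩ := p
        simp only [sz_pair] at *
        omega
      have h3 : rounds p.1.length = 8 * (p.1.length + 1) ^ 4 := by unfold rounds; rfl
      rw [h3]
      simp only [Polynomial.eval_add, Polynomial.eval_mul, Polynomial.eval_pow,
        Polynomial.eval_X, Polynomial.eval_one, Polynomial.eval_ofNat]
      gcongr
  exact h.congr fun p => by rw [List.length_replicate, run_eq]

theorem alg_poly : NPC.Poly alg := by
  refine NPC.Poly.all (l := fun p : List (List Bool) × ℕ => run p.1 (rounds p.1.length))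
    (p := fun p x => decide (rounds p.1.length < (p.2 + 1) * x.2)) run_poly ?_
  exact NPC.Poly.decide_lt (rounds_upoly.toPoly.comp (NPC.Poly.fst NPC.Poly.id)) (by fun_prop)

/-- package POL -/
theorem pol : S_POL := by
  refine ⟨fun x => [match unbits (List (List Bool) × ℕ) x with | none => false | some a => alg a],
    ?_, fun p => ?_⟩
  · exact polyTime_of_poly ((NPC.Poly.optCases (g := fun _ => false) (h := fun _ a => alg a)
      poly_unbits (NPC.Poly.const _) (alg_poly.comp (NPC.Poly.snd NPC.Poly.id))).congr fun x => by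
        cases unbits (List (List Bool) × ℕ) x <;> rfl)
  · simp only [unbits_bits]

end Pool.Agent.P8H52.DS
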